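import Mathlib
import Pool.Agent.W223.AK.Defs
import Pool.Agent.H691R3.PrimeSum

/-!
# Counting ideals and factorisations
-/

set_option autoImplicit false

namespace Pool.Agent.W52.AK

open NumberField IsDedekindDomain Finset Pool.Agent.H691R3 Pool.Agent.W223.AK

variable {K : Type} [Field K] [NumberField K]

/-- the weights -/
noncomputable def fw (η : ℝ) (u : Pr K × ℕ) : ℝ :=
  if u.2 = 0 then 0 else Real.exp (-((1 + η * u.2) * Real.log (Nv u.1)))

theorem fw_nonneg (η : ℝ) (u : Pr K × ℕ) : 0 ≤ fw η u := by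
  unfold fw
  split_ifs
  · exact le_rfl
  · exact (Real.exp_pos _).le

theorem Nv_rpow (v : Pr K) (x : ℝ) : (nm v : ℝ) ^ (-x) = Real.exp (-(x * Real.log (Nv v))) := by
  have h1 : (nm v : ℝ) = Nv v := rfl
  have h2 : 0 < Nv v := by linarith [two_le_Nv v]
  rw [h1, Real.rpow_def_of_pos h2]
  congr 1
  ring

variable (K) in
theorem fw_sum {η : ℝ} (hη : 0 < η) : ∃ F0 : ℝ, ∀ s : Finset (Pr K × ℕ), ∑ u ∈ s, fw η u ≤ F0 := by
  classical
  set ρ : ℝ := Real.exp (-(η / 2 * Real.log 2)) with hρ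
  have hlog : 0 < Real.log 2 := Real.log_pos (by norm_num)
  have hρ0 : 0 ≤ ρ := (Real.exp_pos _).le
  have hρ1 : ρ < 1 := by
    rw [hρ, Real.exp_lt_one_iff]
    have := mul_pos (half_pos hη) hlog
    linarith
  have hG : Summable (fun v : Pr K => (nm v : ℝ) ^ (-(1 + η / 2))) := nm_summable (by linarith)
  have hGH : Summable (fun u : Pr K × ℕ => (nm u.1 : ℝ) ^ (-(1 + η / 2)) * ρ ^ u.2) :=
    Summable.mul_of_nonneg (f := fun v : Pr K => (nm v : ℝ) ^ (-(1 + η / 2))) (g := fun n : ℕ => ρ ^ n) hG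
      (summable_geometric_of_lt_one hρ0 hρ1) (fun v => by positivity) (fun n => pow_nonneg hρ0 n)
  refine ⟨∑' u : Pr K × ℕ, (nm u.1 : ℝ) ^ (-(1 + η / 2)) * ρ ^ u.2, fun s => ?_⟩
  refine le_trans ?_ (hGH.sum_le_tsum s (fun u _ => by positivity))
  apply Finset.sum_le_sum
  intro u _
  unfold fw
  split_ifs with hu
  · positivity
  · rw [Nv_rpow, hρ, ← Real.exp_nat_mul, ← Real.exp_add]
    apply Real.exp_le_exp.2
    have h1 : Real.log 2 ≤ Real.log (Nv u.1) := log_two_le_log_Nv u.1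
    have h2 : (1 : ℝ) ≤ u.2 := by
      exact_mod_cast Nat.one_le_iff_ne_zero.2 hu
    have h3 : 0 < Real.log (Nv u.1) := log_Nv_pos u.1
    have h4 : η / 2 * (u.2 * Real.log 2) ≤ η / 2 * (u.2 * Real.log (Nv u.1)) := by gcongr
    have h5 : η / 2 * (1 * Real.log (Nv u.1)) ≤ η / 2 * (u.2 * Real.log (Nv u.1)) := by gcongr
    nlinarith

theorem rankin (f : Pr K × ℕ → ℝ) (hf0 : ∀ u, 0 ≤ f u) (F0 : ℝ)
    (hf : ∀ s : Finset (Pr K × ℕ), ∑ u ∈ s, f u ≤ F0) (E : Finset (Idl K)) :
    ∑ a ∈ E, ∏ v ∈ a.support, f (v, a v) ≤ Real.exp F0 := by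
  classical
  set D : Idl K → Finset (Pr K × ℕ) := fun a => a.support.image (fun v => (v, a v)) with hD
  have hmem : ∀ (a : Idl K) (v : Pr K) (m : ℕ), (v, m) ∈ D a ↔ a v ≠ 0 ∧ a v = m := by
    intro a v m
    rw [hD]
    simp only [Finset.mem_image, Finsupp.mem_support_iff, Prod.mk.injEq]
    constructor
    · rintro ⟨w, hw, rfl, h2⟩
      exact ⟨hw, h2⟩
    · rintro ⟨h1, h2⟩
      exact ⟨v, h1, rfl, h2⟩
  have hinj : Function.Injective D := by
    intro a b hab
    ext v
    by_cases ha : a v = 0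
    · by_cases hb : b v = 0
      · rw [ha, hb]
      · have h1 : (v, b v) ∈ D a := by
          rw [hab]
          exact (hmem b v _).2 ⟨hb, rfl⟩
        exact ((hmem a v _).1 h1).2
    · have h1 : (v, a v) ∈ D b := by
        rw [← hab]
        exact (hmem a v _).2 ⟨ha, rfl⟩
      exact ((hmem b v _).1 h1).2.symm
  have h0 : ∀ a : Idl K, ∏ v ∈ a.support, f (v, a v) = ∏ u ∈ D a, f u := by
    intro a
    rw [hD]
    simp only
    rw [Finset.prod_image]
    intro v _ w _ h
    exact (Prod.mk.inj h).1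
  have h1 : ∑ a ∈ E, ∏ v ∈ a.support, f (v, a v) = ∑ D0 ∈ E.image D, ∏ u ∈ D0, f u := by
    rw [Finset.sum_image (fun a _ b _ h => hinj h)]
    exact Finset.sum_congr rfl fun a _ => h0 a
  rw [h1]
  set U0 := E.biUnion D with hU0
  calc ∑ D0 ∈ E.image D, ∏ a ∈ D0, f a ≤ ∑ D0 ∈ U0.powerset, ∏ a ∈ D0, f a := by
        refine Finset.sum_le_sum_of_subset_of_nonneg ?_ (fun t _ _ =>
          Finset.prod_nonneg fun a _ => hf0 a)
        intro D0 hD0
        obtain ⟨x, hx, rfl⟩ := Finset.mem_image.mp hD0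
        exact Finset.mem_powerset.mpr (Finset.subset_biUnion_of_mem D hx)
    _ = ∏ a ∈ U0, (1 + f a) := (Finset.prod_one_add _).symm
    _ ≤ ∏ a ∈ U0, Real.exp (f a) := by
        refine Finset.prod_le_prod (fun a _ => by linarith [hf0 a]) (fun a _ => ?_)
        linarith [Real.add_one_le_exp (f a)]
    _ = Real.exp (∑ a ∈ U0, f a) := (Real.exp_sum _ _).symm
    _ ≤ Real.exp F0 := Real.exp_le_exp.mpr (hf U0)

theorem fw_prod (η : ℝ) (a : Idl K) :
    ∏ v ∈ a.support, fw η (v, a v) = Real.exp (-(rl a) - η * len a) := by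
  unfold rl len
  rw [Finset.mul_sum, ← Finset.sum_neg_distrib, ← Finset.sum_sub_distrib, Real.exp_sum]
  apply Finset.prod_congr rfl
  intro v hv
  unfold fw
  simp only
  rw [if_neg (Finsupp.mem_support_iff.1 hv)]
  congr 1
  ring

theorem cnt : StmtCNT K := by
  intro ε hε
  obtain ⟨F0, hF0⟩ := fw_sum K hε
  refine ⟨Real.exp F0, Real.exp_pos _, ?_⟩
  intro X c E _ hE
  have h1 := rankin (fw ε) (fw_nonneg ε) F0 hF0 E
  have h2 : (E.card : ℝ) ≤ ∑ a ∈ E, Real.exp (c + ε * X) * ∏ v ∈ a.support, fw ε (v, a v) := by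
    have h3 : (E.card : ℝ) = ∑ a ∈ E, (1 : ℝ) := by simp
    rw [h3]
    apply Finset.sum_le_sum
    intro a ha
    obtain ⟨h4, h5⟩ := hE a ha
    rw [fw_prod, ← Real.exp_add]
    apply Real.one_le_exp
    have h6 := mul_le_mul_of_nonneg_left h5 hε.le
    linarith
  rw [← Finset.mul_sum] at h2
  calc (E.card : ℝ) ≤ _ := h2
    _ ≤ Real.exp (c + ε * X) * Real.exp F0 := mul_le_mul_of_nonneg_left h1 (Real.exp_pos _).le
    _ = _ := mul_comm _ _

theorem rl_le_len (a : Idl K) : rl a ≤ len a := by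
  unfold rl len
  apply Finset.sum_le_sum
  intro v hv
  have h1 : (1 : ℝ) ≤ a v := by
    exact_mod_cast Nat.one_le_iff_ne_zero.2 (Finsupp.mem_support_iff.1 hv)
  have h3 : 0 < Real.log (Nv v) := log_Nv_pos v
  nlinarith

theorem gcdsum : StmtGCD K := by
  intro ε hε
  obtain ⟨F0, hF0⟩ := fw_sum K hε
  refine ⟨Real.exp F0, Real.exp_pos _, ?_⟩
  intro X E _ hE
  have h1 := rankin (fw ε) (fw_nonneg ε) F0 hF0 E
  have h2 : ∑ a ∈ E, Real.exp (-len a) ≤
      ∑ a ∈ E, Real.exp (ε * X) * ∏ v ∈ a.support, fw ε (v, a v) := by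
    apply Finset.sum_le_sum
    intro a ha
    rw [fw_prod, ← Real.exp_add]
    apply Real.exp_le_exp.2
    have h6 := mul_le_mul_of_nonneg_left (hE a ha) hε.le
    have h7 := rl_le_len a
    linarith
  rw [← Finset.mul_sum] at h2
  calc ∑ a ∈ E, Real.exp (-len a) ≤ _ := h2
    _ ≤ Real.exp (ε * X) * Real.exp F0 := mul_le_mul_of_nonneg_left h1 (Real.exp_pos _).le
    _ = _ := mul_comm _ _

variable (K) in
theorem fin_Nv (M : ℝ) : {v : Pr K | Real.log (Nv v) < M}.Finite := by
  have hG : Summable (fun v : Pr K => (nm v : ℝ) ^ (-(2 : ℝ))) := nm_summable (by norm_num)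
  have h1 := hG.tendsto_cofinite_zero
  have h2 : ∀ᶠ v : Pr K in Filter.cofinite, (nm v : ℝ) ^ (-(2 : ℝ)) < Real.exp (-(2 * M)) :=
    h1.eventually (gt_mem_nhds (Real.exp_pos _))
  refine Set.Finite.subset (Filter.eventually_cofinite.1 h2) ?_
  intro v hv
  have hv' : Real.log (Nv v) < M := hv
  show ¬ ((nm v : ℝ) ^ (-(2 : ℝ)) < Real.exp (-(2 * M)))
  rw [Nv_rpow, not_lt]
  apply Real.exp_le_exp.2
  linarith

variable (K) in
theorem mult_bound (g : ℕ → ℝ) (hg0 : ∀ m, 0 ≤ g m) (B C ε : ℝ) (hC : 1 ≤ C) (hε : 0 < ε)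
    (h1 : ∀ m : ℕ, 1 ≤ m → g m ≤ Real.exp (B * m))
    (h2 : ∀ m : ℕ, 1 ≤ m → g m ≤ C * Real.exp (ε * (m * Real.log 2))) :
    ∃ D : ℝ, 0 < D ∧ ∀ a : Idl K, ∏ v ∈ a.support, g (a v) ≤ D * Real.exp (ε * len a) := by
  classical
  have hT := fin_Nv K (B / ε)
  refine ⟨C ^ hT.toFinset.card, by positivity, ?_⟩
  intro a
  have h3 : ∏ v ∈ a.support, g (a v) ≤
      ∏ v ∈ a.support, ((if v ∈ hT.toFinset then C else 1) * Real.exp (ε * (a v * Real.log (Nv v)))) := by
    apply Finset.prod_le_prod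
    · intro v _
      exact hg0 _
    · intro v hv
      have hm : 1 ≤ a v := Nat.one_le_iff_ne_zero.2 (Finsupp.mem_support_iff.1 hv)
      have h0 : (0 : ℝ) ≤ (a v : ℝ) := Nat.cast_nonneg _
      split_ifs with hvT
      · refine (h2 _ hm).trans ?_
        apply mul_le_mul_of_nonneg_left _ (by linarith)
        apply Real.exp_le_exp.2
        have h4 : Real.log 2 ≤ Real.log (Nv v) := log_two_le_log_Nv v
        gcongr
      · rw [one_mul]
        refine (h1 _ hm).trans ?_
        apply Real.exp_le_exp.2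
        have h4 : ¬ Real.log (Nv v) < B / ε := by
          intro h
          exact hvT ((Set.Finite.mem_toFinset hT).2 h)
        rw [not_lt, div_le_iff₀ hε] at h4
        nlinarith
  refine h3.trans ?_
  rw [Finset.prod_mul_distrib]
  have h5 : ∏ v ∈ a.support, Real.exp (ε * (a v * Real.log (Nv v))) = Real.exp (ε * len a) := by
    rw [← Real.exp_sum, ← Finset.mul_sum]
    rfl
  rw [h5]
  apply mul_le_mul_of_nonneg_right _ (Real.exp_pos _).le
  rw [Finset.prod_ite, Finset.prod_const_one, mul_one, Finset.prod_const]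
  apply pow_le_pow_right₀ hC
  apply Finset.card_le_card
  intro v hv
  exact (Finset.mem_filter.1 hv).2

theorem omg : StmtOMG K := by
  intro C ε hC hε
  have hC0 : 0 < C := by linarith
  obtain ⟨D, hD, h⟩ := mult_bound K (fun _ => C) (fun _ => hC0.le) (Real.log C) C ε hC hε
    (by
      intro m hm
      have h1 : (1 : ℝ) ≤ m := by exact_mod_cast hm
      have h2 : 0 ≤ Real.log C := Real.log_nonneg hC
      calc C = Real.exp (Real.log C) := (Real.exp_log hC0).symm
        _ ≤ _ := Real.exp_le_exp.2 (by nlinarith))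
    (by
      intro m _
      have h1 : 1 ≤ Real.exp (ε * (m * Real.log 2)) := by
        apply Real.one_le_exp
        have : 0 ≤ Real.log 2 := Real.log_nonneg (by norm_num)
        positivity
      show C ≤ C * _
      nlinarith)
  refine ⟨D, hD, fun a => ?_⟩
  have h1 := h a
  rw [Finset.prod_const] at h1
  exact h1

theorem fac : StmtFAC K := by
  classical
  intro h ε hε
  have hlog : 0 < Real.log 2 := Real.log_pos (by norm_num)
  set δ : ℝ := ε * Real.log 2 / (h + 1) with hδ
  have hδ0 : 0 < δ := by positivity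
  set C : ℝ := max 1 (Real.exp (ε * Real.log 2) / δ ^ h) with hC
  obtain ⟨D, hD, hb⟩ := mult_bound K (fun m => ((m : ℝ) + 1) ^ h) (fun m => by positivity) (h : ℝ) C ε
    (le_max_left _ _) hε
    (by
      intro m _
      have h1 : (m : ℝ) + 1 ≤ Real.exp m := Real.add_one_le_exp _
      calc ((m : ℝ) + 1) ^ h ≤ Real.exp m ^ h := pow_le_pow_left₀ (by positivity) h1 h
        _ = Real.exp (h * m) := by rw [← Real.exp_nat_mul])
    (by
      intro m _
      have h1 : (m : ℝ) + 1 ≤ Real.exp (δ * (m + 1)) / δ := by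
        rw [le_div_iff₀ hδ0]
        have := Real.add_one_le_exp (δ * (m + 1))
        linarith
      have h2 : ((m : ℝ) + 1) ^ h ≤ (Real.exp (δ * (m + 1)) / δ) ^ h :=
        pow_le_pow_left₀ (by positivity) h1 h
      have h3 : Real.exp (δ * (m + 1)) ^ h ≤ Real.exp (ε * Real.log 2) * Real.exp (ε * (m * Real.log 2)) := by
        rw [← Real.exp_nat_mul, ← Real.exp_add]
        apply Real.exp_le_exp.2
        have h4 : (h : ℝ) * δ ≤ ε * Real.log 2 := by
          rw [hδ, mul_div_assoc', div_le_iff₀ (by positivity)]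
          nlinarith [mul_pos hε hlog]
        have h5 : (h : ℝ) * δ * (m + 1) ≤ ε * Real.log 2 * (m + 1) :=
          mul_le_mul_of_nonneg_right h4 (by positivity)
        nlinarith
      rw [div_pow] at h2
      refine h2.trans ?_
      calc Real.exp (δ * (m + 1)) ^ h / δ ^ h
          ≤ (Real.exp (ε * Real.log 2) * Real.exp (ε * (m * Real.log 2))) / δ ^ h := by gcongr
        _ = (Real.exp (ε * Real.log 2) / δ ^ h) * Real.exp (ε * (m * Real.log 2)) := by ring
        _ ≤ C * Real.exp (ε * (m * Real.log 2)) :=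
          mul_le_mul_of_nonneg_right (le_max_right _ _) (Real.exp_pos _).le)
  refine ⟨D, hD, ?_⟩
  intro a E hE
  refine le_trans ?_ (hb a)
  set W : Finset ((v : Pr K) → v ∈ a.support → (Fin h → ℕ)) :=
    a.support.pi (fun v => Fintype.piFinset (fun _ : Fin h => Finset.range (a v + 1))) with hW
  have hle : ∀ x ∈ E, ∀ v j, x j v ≤ a v := by
    intro x hx v j
    have h1 := DFunLike.congr_fun (hE x hx) v
    rw [Finsupp.finsetSum_apply] at h1
    rw [← h1]
    exact Finset.single_le_sum (f := fun j => x j v) (fun _ _ => Nat.zero_le _) (Finset.mem_univ j)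
  have hcard : E.card ≤ W.card := by
    apply Finset.card_le_card_of_injOn (fun x => fun v _ j => x j v)
    · intro x hx
      rw [Finset.mem_coe, hW, Finset.mem_pi]
      intro v _
      rw [Fintype.mem_piFinset]
      intro j
      rw [Finset.mem_range]
      exact Nat.lt_succ_of_le (hle x hx v j)
    · intro x hx y hy hxy
      funext j
      ext v
      by_cases hv : v ∈ a.support
      · have h1 := congrFun (congrFun (congrFun hxy v) hv) j
        exact h1
      · have h0 : a v = 0 := by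
          by_contra h
          exact hv (Finsupp.mem_support_iff.2 h)
        have h1 := hle x hx v j
        have h2 := hle y hy v j
        omega
  have hWc : W.card = ∏ v ∈ a.support, (a v + 1) ^ h := by
    rw [hW, Finset.card_pi]
    apply Finset.prod_congr rfl
    intro v _
    rw [Fintype.card_piFinset]
    simp
  have h1 : (E.card : ℝ) ≤ (W.card : ℝ) := by exact_mod_cast hcard
  refine h1.trans (le_of_eq ?_)
  rw [hWc]
  push_cast
  rfl

end Pool.Agent.W52.AK
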